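import Pool.Agent.helper70.LZ.SpecZ

/-! Row ZOR of block BOUND-Z (project LE). -/

set_option autoImplicit false

namespace Pool.Agent.LE

open Pool.Agent.helper58.DC Pool.Agent.DI Pool.Agent.GR Pool.Agent.OB Pool.Agent.DR Pool.Agent.FI Pool.Agent.FI3 Pool.Agent.FI4

/-- Sums of products. -/
theorem ZOR_gen {α β : Type} (S : Finset α) (R : Finset β) (f h : α → β → ℂ) (x y : β → ℂ) :
    ∑ ψ ∈ S, (∑ v ∈ R, f ψ v * x v) * (∑ v ∈ R, h ψ v * y v) =
      ∑ v ∈ R, ∑ v' ∈ R, (x v * y v') * ∑ ψ ∈ S, f ψ v * h ψ v' := by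
  have h1 : ∀ ψ ∈ S, (∑ v ∈ R, f ψ v * x v) * (∑ v ∈ R, h ψ v * y v) =
      ∑ v ∈ R, ∑ v' ∈ R, (x v * y v') * (f ψ v * h ψ v') := by
    intro ψ _
    rw [Finset.sum_mul_sum]
    refine Finset.sum_congr rfl fun v _ => Finset.sum_congr rfl fun v' _ => ?_
    ring
  rw [Finset.sum_congr rfl h1, Finset.sum_comm]
  refine Finset.sum_congr rfl fun v _ => ?_
  rw [Finset.sum_comm]
  refine Finset.sum_congr rfl fun v' _ => ?_
  rw [Finset.mul_sum]

set_option linter.unusedVariables false in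
theorem ZOR (hBR0 : BR0_stmt) (hBRY : BRY_stmt) (hBLE : BLE_stmt) (hQEI : QEI_stmt) (hQCJ : QCJ_stmt) (hFEQ : FEQ_stmt) (hSFC : SFC_stmt) (hSTC : STC_stmt) (hB2 : B2_stmt) : ZOR_stmt := by
  classical
  intro p M hM G _ _ θ K u u' hu hu' hK hK' η₀ hη₀ hSB hex
  have hmK : ∀ x : G, x ∈ K ↔ u * x = x * u := by
    intro x
    rw [← hK]
    unfold Cz
    rw [top_inf_eq, Subgroup.mem_centralizer_iff]
    simp only [Set.mem_singleton_iff, forall_eq]
  have hmK' : ∀ x : G, x ∈ K ↔ u' * x = x * u' := by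
    intro x
    rw [← hK']
    unfold Cz
    rw [top_inf_eq, Subgroup.mem_centralizer_iff]
    simp only [Set.mem_singleton_iff, forall_eq]
  -- the finite sets
  have hSfin : (Bl M (⊤ : Subgroup G) θ).Finite := (hB2 G ⊤).1.subset fun ψ h => h.1
  have hQfin : (Bq M (⊤ : Subgroup G) K θ).Finite := (hB2 G K).1.subset fun ψ h => h.1
  have hRfin : {v : G | v ∈ K ∧ PReg p v}.Finite := Set.toFinite _
  obtain ⟨S, hS⟩ : ∃ S : Finset (G → ℂ), ∀ ψ, ψ ∈ S ↔ ψ ∈ Bl M (⊤ : Subgroup G) θ :=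
    ⟨hSfin.toFinset, fun ψ => hSfin.mem_toFinset⟩
  obtain ⟨Q, hQ⟩ : ∃ Q : Finset (G → ℂ), ∀ ψ, ψ ∈ Q ↔ ψ ∈ Bq M (⊤ : Subgroup G) K θ :=
    ⟨hQfin.toFinset, fun ψ => hQfin.mem_toFinset⟩
  obtain ⟨R, hR⟩ : ∃ R : Finset G, ∀ v, v ∈ R ↔ v ∈ K ∧ PReg p v :=
    ⟨hRfin.toFinset, fun v => hRfin.mem_toFinset⟩
  have hsS : ∀ f : (G → ℂ) → ℂ, ∑ᶠ ψ ∈ Bl M (⊤ : Subgroup G) θ, f ψ = ∑ ψ ∈ S, f ψ := by
    intro f
    have : (S : Set (G → ℂ)) = Bl M (⊤ : Subgroup G) θ := by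
      ext ψ
      exact hS ψ
    rw [← this, finsum_mem_coe_finset]
  have hsQ : ∀ f : (G → ℂ) → ℂ, ∑ᶠ ψ ∈ Bq M (⊤ : Subgroup G) K θ, f ψ = ∑ ψ ∈ Q, f ψ := by
    intro f
    have : (Q : Set (G → ℂ)) = Bq M (⊤ : Subgroup G) K θ := by
      ext ψ
      exact hQ ψ
    rw [← this, finsum_mem_coe_finset]
  have hsR : ∀ f : G → ℂ, ∑ᶠ v ∈ {v : G | v ∈ K ∧ PReg p v}, f v = ∑ v ∈ R, f v := by
    intro f
    have : (R : Set G) = {v : G | v ∈ K ∧ PReg p v} := by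
      ext v
      exact hR v
    rw [← this, finsum_mem_coe_finset]
  -- the product
  have hterm : ∀ ψ ∈ S, az p K η₀ ψ u * (starRingEnd ℂ) (az p K η₀ ψ u') =
      ((Nat.card K : ℂ)⁻¹ * (Nat.card K : ℂ)⁻¹) *
        ((∑ v ∈ R, ψ (u * v) * η₀ v⁻¹) * (∑ v ∈ R, ψ (u' * v)⁻¹ * η₀ v)) := by
    intro ψ hψ
    have hψI : ψ ∈ IrrOn (⊤ : Subgroup G) := ((hS ψ).1 hψ).1
    unfold az
    rw [hsR, hsR, map_div₀, map_natCast, map_sum]
    have h1 : ∑ v ∈ R, (starRingEnd ℂ) (ψ (u' * v) * η₀ v⁻¹) = ∑ v ∈ R, ψ (u' * v)⁻¹ * η₀ v := by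
      refine Finset.sum_congr rfl fun v _ => ?_
      rw [map_mul, ← hSTC G ⊤ ψ hψI, ← hSTC G K η₀ hη₀, inv_inv]
    rw [h1, div_eq_mul_inv, div_eq_mul_inv]
    ring
  rw [hsS, Finset.sum_congr rfl hterm, ← Finset.mul_sum]
  rw [ZOR_gen S R (fun ψ v => ψ (u * v)) (fun ψ v => ψ (u' * v)⁻¹) (fun v => η₀ v⁻¹) (fun v => η₀ v)]
  have hBC : BC M (⊤ : Subgroup G) (Bl M (⊤ : Subgroup G) θ) := (Q1_BC M ⊤ 1 θ).1
  by_cases hc : ∃ g : G, g * u * g⁻¹ = u'
  · obtain ⟨g, hg⟩ := hc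
    have hSBn := hex g hg
    have hgK : cjS g K = K := by
      ext x
      rw [mem_cjS, hmK, hmK', ← hg]
      constructor
      · intro h
        calc g * u * g⁻¹ * x = g * (u * (g⁻¹ * x * g)) * g⁻¹ := by group
          _ = g * (g⁻¹ * x * g * u) * g⁻¹ := by rw [h]
          _ = x * (g * u * g⁻¹) := by group
      · intro h
        calc u * (g⁻¹ * x * g) = g⁻¹ * (g * u * g⁻¹ * x) * g := by group
          _ = g⁻¹ * (x * (g * u * g⁻¹)) * g := by rw [h]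
          _ = g⁻¹ * x * g * u := by group
    have hgm : ∀ v : G, g * v * g⁻¹ ∈ K ↔ v ∈ K := by
      intro v
      have h1 : g * v * g⁻¹ ∈ cjS g K ↔ v ∈ K := by
        rw [mem_cjS]
        have : g⁻¹ * (g * v * g⁻¹) * g = v := by group
        rw [this]
      rw [hgK] at h1
      exact h1
    have hreg : ∀ v : G, PReg p (g * v * g⁻¹) ↔ PReg p v := by
      intro v
      have h1 : orderOf (g * v * g⁻¹) = orderOf v := by
        have := orderOf_injective (MulAut.conj g).toMonoidHom (MulAut.conj g).injective v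
        simpa using this
      unfold PReg
      rw [h1]
    have hkey : ∀ v ∈ R, ∀ v' ∈ R, ∑ ψ ∈ S, ψ (u * v) * ψ (u' * v')⁻¹ =
        ∑ ψ ∈ Q, ψ (g * v * g⁻¹) * ψ v'⁻¹ := by
      intro v hv v' hv'
      have hv1 := (hR v).1 hv
      have hv2 := (hR v').1 hv'
      have h1 := ((hSFC G ⊤ (Bl M (⊤ : Subgroup G) θ) hBC.sub).1 (u * v) (u' * v') g
        (Subgroup.mem_top g)).1
      have h2 : g * (u * v) * g⁻¹ = u' * (g * v * g⁻¹) := by
        rw [← hg]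
        group
      rw [h2] at h1
      have hCz : Cz (⊤ : Subgroup G) u' = K := hK'
      have h3 := hBRY p M hM G ⊤ u' (Subgroup.mem_top _) hu' θ (g * v * g⁻¹)
        (by rw [hCz]; exact (hgm v).2 hv1.1) v' (by rw [hCz]; exact hv2.1) ((hreg v).2 hv1.2) hv2.2
      rw [hCz] at h3
      rw [h3] at h1
      unfold Sf at h1
      rw [hsS, hsQ] at h1
      exact h1.symm
    rw [Finset.sum_congr rfl fun v hv => Finset.sum_congr rfl fun v' hv' =>
      congrArg (fun t => η₀ v⁻¹ * η₀ v' * t) (hkey v hv v' hv')]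
    rw [← ZOR_gen Q R (fun ψ v => ψ (g * v * g⁻¹)) (fun ψ v => ψ v⁻¹) (fun v => η₀ v⁻¹) (fun v => η₀ v)]
    have hcard : (Nat.card K : ℂ) ≠ 0 := by exact_mod_cast Nat.card_pos.ne'
    have hz : ∀ ψ ∈ Q, (∑ v ∈ R, ψ (g * v * g⁻¹) * η₀ v⁻¹) * (∑ v ∈ R, ψ v⁻¹ * η₀ v) = 0 := by
      intro ψ hψ
      have hψ1 := (hQ ψ).1 hψ
      have hBCψ : BC M K (Bl M K ψ) := (Q1_BC M K 1 ψ).1
      have hψm : ψ ∈ Bl M K ψ := ⟨hψ1.1, SB.refl K ψ⟩
      have hcjI : cjF g η₀ ∈ IrrOn K := by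
        have := (hFEQ G M g 1 K K K η₀ η₀ η₀).2.2.2.1.1 hη₀
        rwa [hgK] at this
      by_cases h0 : SB M K η₀ ψ
      · have h1 : ¬ SB M K (cjF g η₀) ψ := fun h => hSBn (SB.trans h (SB.symm h0))
        have h2 := ((hQEI p M hM G K (Bl M K ψ) hBCψ).2.1 ψ hψm (cjF g η₀) hcjI
          (fun h => h1 h.2)).1
        have h3 : ∑ v ∈ R, ψ (g * v * g⁻¹) * η₀ v⁻¹ = ∑ v ∈ R, ψ v * cjF g η₀ v⁻¹ := by
          refine Finset.sum_bij' (fun v _ => g * v * g⁻¹) (fun v _ => g⁻¹ * v * g) ?_ ?_ ?_ ?_ ?_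
          · intro v hv
            have := (hR v).1 hv
            exact (hR _).2 ⟨(hgm v).2 this.1, (hreg v).2 this.2⟩
          · intro v hv
            have := (hR v).1 hv
            have h4 : g * (g⁻¹ * v * g) * g⁻¹ = v := by group
            refine (hR _).2 ⟨?_, ?_⟩
            · rw [← hgm, h4]
              exact this.1
            · rw [← hreg, h4]
              exact this.2
          · intro v _
            group
          · intro v _
            group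
          · intro v _
            rw [cjF_apply]
            have h4 : g⁻¹ * (g * v * g⁻¹)⁻¹ * g = v⁻¹ := by group
            rw [h4]
        rw [h3]
        unfold EE at h2
        rw [hsR, div_eq_zero_iff] at h2
        rcases h2 with h2 | h2
        · rw [h2, zero_mul]
        · exact absurd h2 hcard
      · have h2 := ((hQEI p M hM G K (Bl M K ψ) hBCψ).2.1 ψ hψm η₀ hη₀ (fun h => h0 h.2)).2
        unfold EE at h2
        rw [hsR, div_eq_zero_iff] at h2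
        rcases h2 with h2 | h2
        · have h3 : ∑ v ∈ R, ψ v⁻¹ * η₀ v = ∑ v ∈ R, η₀ v * ψ v⁻¹ :=
            Finset.sum_congr rfl fun v _ => mul_comm _ _
          rw [h3, h2, mul_zero]
        · exact absurd h2 hcard
    rw [Finset.sum_eq_zero hz, mul_zero]
  · have hz : ∀ v ∈ R, ∀ v' ∈ R, ∑ ψ ∈ S, ψ (u * v) * ψ (u' * v')⁻¹ = 0 := by
      intro v hv v' hv'
      have hv1 := (hR v).1 hv
      have hv2 := (hR v').1 hv'
      have h1 := hBR0 p M hM G ⊤ (Bl M (⊤ : Subgroup G) θ) hBC u (Subgroup.mem_top _) v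
        (Subgroup.mem_top _) u' (Subgroup.mem_top _) v' (Subgroup.mem_top _) hu hu' hv1.2 hv2.2
        ((hmK v).1 hv1.1) ((hmK' v').1 hv2.1) (fun h _ e => hc ⟨h⁻¹, by rw [inv_inv]; exact e⟩)
      unfold Sf at h1
      rw [hsS] at h1
      exact h1
    rw [Finset.sum_congr rfl fun v hv => Finset.sum_congr rfl fun v' hv' =>
      congrArg (fun t => η₀ v⁻¹ * η₀ v' * t) (hz v hv v' hv')]
    simp

end Pool.Agent.LE
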